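import Pool.Agent.H12.Sturm3

/-! A summable interaction whose unique ground state is the golden Sturmian measure, and this
ground state is zero-temperature stable. -/

open MeasureTheory

namespace Pool.Agent.Results.MP_084e97_mp.Stable

/-- Configurations `{0,1}^ℤ`. -/
abbrev Conf : Type := ℤ → Fin 2

/-- The shift `(T_a X)_i = X_{i-a}`. -/
def shift (a : ℤ) (X : Conf) : Conf := fun i => X (i - a)

/-- A translation-invariant summable interaction. -/
structure IsInteraction (Φ : Finset ℤ → Conf → ℝ) : Prop where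
  loc : ∀ Λ X Y, (∀ i ∈ Λ, X i = Y i) → Φ Λ X = Φ Λ Y
  inv : ∀ Λ a X, Φ (Λ.image (· + a)) (shift a X) = Φ Λ X
  summable : Summable fun Λ : {Λ : Finset ℤ // 0 ∈ Λ} => ⨆ X, |Φ Λ X|

/-- Finite range. -/
def FiniteRange (Φ : Finset ℤ → Conf → ℝ) : Prop :=
  ∃ r : ℕ, ∀ Λ, (∃ i ∈ Λ, ∃ j ∈ Λ, (r : ℤ) < j - i) → Φ Λ = 0

/-- Ground-state configuration: `H(Y|X) ≥ 0` for all local excitations `Y`. -/
def IsGSC (Φ : Finset ℤ → Conf → ℝ) (X : Conf) : Prop :=
  ∀ Y : Conf, {i | Y i ≠ X i}.Finite → 0 ≤ ∑' Λ, (Φ Λ Y - Φ Λ X)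

/-- Translation-invariant probability measure. -/
def Invariant (μ : Measure Conf) : Prop := IsProbabilityMeasure μ ∧ ∀ a, μ.map (shift a) = μ

/-- Ground state (measure). -/
def IsGS (Φ : Finset ℤ → Conf → ℝ) (μ : Measure Conf) : Prop := Invariant μ ∧ ∀ᵐ X ∂μ, IsGSC Φ X

/-- The Sturmian sequence generated by `φ`. -/
noncomputable def sturm (φ : ℝ) : Conf := fun n => if Int.fract (n * φ) < φ then 0 else 1

/-- The closure of its shift orbit. -/
def GSt (φ : ℝ) : Set Conf := closure (Set.range fun a => shift a (sturm φ))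

open Pool.Agent.H12.Sturm Finset

lemma z_fract (t : ℝ) : (if Int.fract t < α then (1 : ℝ) else 0) - α =
    Int.fract (t - α) - Int.fract t := by
  have h0 := Int.fract_nonneg t
  have h1 := Int.fract_lt_one t
  have h2 := α_pos
  have h3 := α_lt
  have e := Int.floor_add_fract t
  split_ifs with h
  · rw [Int.fract_eq_iff.mpr ⟨(by linarith : 0 ≤ Int.fract t - α + 1), by linarith, ⌊t⌋ - 1,
      by push_cast; linarith⟩]; ring
  · rw [Int.fract_eq_iff.mpr ⟨(by linarith : 0 ≤ Int.fract t - α), by linarith, ⌊t⌋,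
      by linarith⟩]; ring

lemma leg_sturm : Leg (sturm α) := by
  rintro Λ ⟨a, b, -, h⟩
  rcases le_or_gt a b with hab | hab
  · have key : ∑ k ∈ Ico a b, (z (sturm α) k - α) =
        Int.fract (a * α - α) - Int.fract (b * α - α) := by
      clear h
      induction b, hab using Int.leInduction with
      | base => simp
      | succ n hn ih =>
        have : z (sturm α) n = if Int.fract (n * α) < α then (1 : ℝ) else 0 := by
          unfold z sturm; split_ifs <;> simp_all
        rw [sum_Ico_succ _ hn, ih, this, z_fract]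
        push_cast
        rw [add_mul, one_mul, add_sub_cancel_right]; ring
    rw [key] at h
    have := Int.fract_nonneg (a * α - α)
    have := Int.fract_lt_one (a * α - α)
    have := Int.fract_nonneg (b * α - α)
    have := Int.fract_lt_one (b * α - α)
    exact absurd h (not_le.mpr (abs_lt.mpr ⟨by linarith, by linarith⟩))
  · rw [Ico_eq_empty_of_le hab.le] at h; norm_num at h

lemma leg_of_mem {X : Conf} (h : X ∈ GSt α) : Leg X := fun Λ hb => by
  have ho : IsOpen {Y : Conf | ∀ i ∈ Λ, X i = Y i} := by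
    simp only [Set.ofPred_forall]
    exact isOpen_biInter_finset fun i _ =>
      (isOpen_discrete {y | X i = y}).preimage (continuous_apply i)
  obtain ⟨_, h1, a, rfl⟩ := mem_closure_iff.mp h _ ho fun _ _ => rfl
  exact leg_sturm.shift a Λ (hb.congr h1)

noncomputable def code (x : UnitAddCircle) : Conf := fun n =>
  if (AddCircle.equivIco 1 0 (x + ((n * α : ℝ) : UnitAddCircle)) : ℝ) < α then 0 else 1

lemma code_coe (x : ℝ) (n : ℤ) : code x n = if Int.fract (x + n * α) < α then 0 else 1 := by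
  simp only [code, ← AddCircle.coe_add, AddCircle.coe_equivIco_mk_apply, div_one, mul_one]

lemma code_meas : Measurable code := measurable_pi_lambda _ fun _ =>
  Measurable.ite (measurableSet_lt (measurable_subtype_coe.comp
    ((AddCircle.measurableEquivIco 1 0).measurable.comp (measurable_add_const _))) measurable_const)
    measurable_const measurable_const

lemma code_shift (a : ℤ) (x : UnitAddCircle) :
    shift a (code x) = code (x + ((-a * α : ℝ) : UnitAddCircle)) := by
  funext n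
  simp only [shift, code, add_assoc, ← AddCircle.coe_add]
  congr 5
  push_cast; ring_nf

lemma code_mem (x : UnitAddCircle) : code x ∈ GSt α := by
  induction x using QuotientAddGroup.induction_on with
  | H x =>
  let y : ℕ → ℝ := fun m => (⌊x / α ^ m⌋ + 1) * α ^ m
  have hy : ∀ m, x ≤ y m ∧ y m ≤ x + α ^ m := fun m => by
    have hp : 0 < α ^ m := pow_pos α_pos m
    have h1 := (le_div_iff₀ hp).mp (Int.floor_le (x / α ^ m))
    have h2 := (div_lt_iff₀ hp).mp (Int.lt_floor_add_one (x / α ^ m))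
    exact ⟨h2.le, by simp only [y]; linarith⟩
  refine mem_closure_of_tendsto (b := Filter.atTop) (f := fun m => code (y m : ℝ)) ?_
    (.of_forall fun m => ?_)
  · refine tendsto_pi_nhds.mpr fun n => tendsto_const_nhds.congr' ?_
    have t0 := tendsto_pow_atTop_nhds_zero_of_lt_one α_pos.le α_lt
    have h0 := Int.fract_nonneg (x + n * α)
    have h1 := Int.fract_lt_one (x + n * α)
    have e := Int.floor_add_fract (x + n * α)
    have key : ∀ m, α ^ m < 1 - Int.fract (x + n * α) →
        Int.fract (y m + n * α) = Int.fract (x + n * α) + (y m - x) := fun m hm =>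
      Int.fract_eq_iff.mpr ⟨by linarith [(hy m).1], by linarith [(hy m).2], ⌊x + n * α⌋, by linarith⟩
    by_cases h : Int.fract (x + n * α) < α
    · filter_upwards [t0.eventually (gt_mem_nhds (sub_pos.mpr h1)),
        t0.eventually (gt_mem_nhds (sub_pos.mpr h))] with m h2 h3
      rw [code_coe, code_coe, if_pos h, if_pos (by rw [key m h2]; linarith [(hy m).2])]
    · filter_upwards [t0.eventually (gt_mem_nhds (sub_pos.mpr h1))] with m h2
      rw [code_coe, code_coe, if_neg h, if_neg (by rw [key m h2]; linarith [(hy m).1])]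
  · obtain ⟨a, b, e, -⟩ := α_pow m
    refine ⟨-((⌊x / α ^ m⌋ + 1) * b), funext fun n => ?_⟩
    rw [code_coe]
    have : y m + n * α = ((n - -((⌊x / α ^ m⌋ + 1) * b) : ℤ) : ℝ) * α + ((⌊x / α ^ m⌋ + 1) * a : ℤ) := by
      simp only [y]
      generalize ⌊x / α ^ m⌋ = k
      rw [e]; push_cast; ring
    rw [this, Int.fract_add_intCast]
    rfl

theorem result : ∃ φ : ℝ, Irrational φ ∧ 0 < φ ∧ φ < 1 ∧
    ∃ Φ : Finset ℤ → Conf → ℝ, IsInteraction Φ ∧
      ∃ ρ : Measure Conf, Invariant ρ ∧ ρ (GSt φ)ᶜ = 0 ∧ (∀ μ, IsGS Φ μ ↔ μ = ρ) ∧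
        ∀ Ψ : Finset ℤ → Conf → ℝ, IsInteraction Ψ → FiniteRange Ψ →
          ∃ ε₀ > 0, ∀ ε : ℝ, 0 < ε → ε < ε₀ → IsGS (Φ + ε • Ψ) ρ := by
  have : IsProbabilityMeasure (volume : Measure UnitAddCircle) := ⟨UnitAddCircle.measure_univ⟩
  let ρ : Measure Conf := volume.map code
  have hρ : Invariant ρ := ⟨Measure.isProbabilityMeasure_map code_meas.aemeasurable, fun a => by
    have e : shift a ∘ code = code ∘ (· + ((-a * α : ℝ) : UnitAddCircle)) := funext (code_shift a)
    refine (Measure.map_map (sh_meas a) code_meas).trans ?_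
    show Measure.map (shift a ∘ code) _ = volume.map code
    rw [e, ← Measure.map_map code_meas (measurable_add_const _), map_add_right_eq_self]⟩
  have hs : ρ (GSt α)ᶜ = 0 := by
    refine (Measure.map_apply code_meas isClosed_closure.measurableSet.compl).trans ?_
    show volume (code ⁻¹' (GSt α)ᶜ) = 0
    rw [show code ⁻¹' (GSt α)ᶜ = ∅ from Set.eq_empty_of_forall_notMem fun x hx => hx (code_mem x),
      measure_empty]
  have hl : ∀ᵐ X ∂ρ, Leg X := measure_mono_null (fun X hX h => hX (leg_of_mem h)) hs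
  refine ⟨α, α_irr, α_pos, α_lt, Φ, ⟨Φ_loc, fun Λ a X => ?_, ?_⟩, ρ, hρ, hs, fun μ => ⟨?_, ?_⟩, ?_⟩
  · by_cases h : Bad Λ X
    · simp only [Φ, wt_tr, h, (bad_tr Λ X a).mpr h, show shift = sh from rfl]
    · simp only [Φ, wt_tr, h, mt (bad_tr Λ X a).mp h, show shift = sh from rfl]
  · obtain ⟨S, hS⟩ := sumS
    refine .of_nonneg_of_le (fun Λ => Real.iSup_nonneg fun _ => abs_nonneg _) (fun Λ => ?_)
      ((hS 0).summable.subtype {Λ | 0 ∈ Λ})
    refine ciSup_le fun X => ?_
    rw [abs_of_nonneg (Φ_nonneg _ _), Function.comp_apply, if_pos Λ.2]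
    exact Φ_le _ _
  · rintro ⟨⟨_, h1⟩, h2⟩
    have := hρ.1
    exact unique h1 (ae_leg leg_sturm h1 h2) hρ.2 hl
  · rintro rfl
    exact ⟨hρ, hl.mono fun X hX Y hY => (abs_nonneg _).trans (energy_d hX hY)⟩
  · rintro Ψ hΨ ⟨r, hr⟩
    obtain ⟨C, hC, h⟩ := perturb Ψ hΨ.loc hΨ.inv r hr
    refine ⟨1 / C, by positivity, fun ε h0 h1 => ⟨hρ, hl.mono fun X hX Y hY => ?_⟩⟩
    obtain ⟨h2, h3⟩ := h X Y hX hY
    have e : ∀ Λ, (Φ + ε • Ψ) Λ Y - (Φ + ε • Ψ) Λ X = (Φ Λ Y - Φ Λ X) + ε * (Ψ Λ Y - Ψ Λ X) :=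
      fun Λ => by simp only [Pi.add_apply, Pi.smul_apply, smul_eq_mul]; ring
    simp only [e]
    rw [(Φ_summable hY).tsum_add (h2.mul_left ε), tsum_mul_left]
    have h4 := (abs_nonneg _).trans (energy_d hX hY)
    have h5 := mul_le_mul_of_nonneg_left (abs_le.mp h3).1 h0.le
    rw [lt_div_iff₀ hC] at h1
    nlinarith

end Pool.Agent.Results.MP_084e97_mp.Stable
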